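import Mathlib
import Pool.Agent.Helper175.NS.Main

set_option autoImplicit false

namespace Pool.Agent.Results.MP_a8759f_co.EverySpace

open Pool.Agent.Helper175.NS

/-- Every space that is homeomorphic to the realization of a finite simplicial complex of
dimension at least three has a nonshellable triangulation, which can be chosen pure if the given
triangulation is pure. -/
theorem result (X : Type*) [TopologicalSpace X] (V : Type) (Δ : Cx V)
    (hX : Nonempty (X ≃ₜ Δ.space)) (hdim : ∃ F ∈ Δ.faces, 4 ≤ F.card) :
    ∃ (W : Type) (Γ : Cx W), Nonempty (X ≃ₜ Γ.space) ∧ (Δ.Pure → Γ.Pure) ∧ ¬ Γ.Shellable :=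
  main X V Δ hX hdim

end Pool.Agent.Results.MP_a8759f_co.EverySpace
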